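import Pool.Agent.L0h43.TE.Fam

/-!
# Sets of almost primes next to the elements of a set: all classes together
-/

set_option autoImplicit false

namespace Pool.Agent.L0h43.TE

open Finset Filter Topology Pool.Agent.H387R2
open Pool.Agent.L0h43.TA Pool.Agent.L0h43.TB Pool.Agent.L0h43.TD
open Pool.Agent.H386R2.HL

lemma Jv_pow (W ν u H k : ℕ) (B : Finset ℕ) :
    (Jv W ν u H \ B).powersetCard k = ((Ioc u (u + H) \ B).powersetCard k).filter (fun D => OK W ν D) := by
  ext D
  simp only [mem_powersetCard, mem_filter]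
  constructor
  · rintro ⟨h1, h2⟩
    refine ⟨⟨fun x hx => ?_, h2⟩, fun x hx => ?_⟩
    · have h3 := h1 hx
      rw [Finset.mem_sdiff] at h3 ⊢
      unfold Jv at h3
      rw [mem_filter] at h3
      exact ⟨h3.1.1, h3.2⟩
    · have h3 := h1 hx
      rw [Finset.mem_sdiff] at h3
      unfold Jv at h3
      rw [mem_filter] at h3
      exact h3.1.2
  · rintro ⟨⟨h1, h2⟩, h3⟩
    refine ⟨fun x hx => ?_, h2⟩
    have h4 := h1 hx
    rw [Finset.mem_sdiff] at h4 ⊢
    unfold Jv
    rw [mem_filter]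
    exact ⟨⟨h4.1, h3 x hx⟩, h4.2⟩

lemma OK_union {W ν : ℕ} {B D : Finset ℕ} : OK W ν (B ∪ D) ↔ OK W ν B ∧ OK W ν D := by
  unfold OK
  constructor
  · intro h
    exact ⟨fun t ht => h t (mem_union_left _ ht), fun t ht => h t (mem_union_right _ ht)⟩
  · rintro ⟨h1, h2⟩ t ht
    rcases mem_union.1 ht with ht | ht
    · exact h1 t ht
    · exact h2 t ht

open Classical in
theorem baseL : ∃ c0 : ℝ, 0 < c0 ∧ c0 ≤ 1 ∧ ∀ (b k : ℕ) (ε : ℝ), 0 < ε →
    ∃ K : ℝ, 1 ≤ K ∧ ∃ w0 : ℕ, ∀ w : ℕ, w0 ≤ w → ∀ A : ℝ, 0 ≤ A → ∃ N₀ : ℕ, ∀ N : ℕ, N₀ ≤ N →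
      ∀ B : Finset ℕ, B.card = b → (∀ t ∈ B, (t : ℝ) ≤ Real.log N ^ A) →
      ∀ u H : ℕ, K * Real.log N ≤ H → ((u + H : ℕ) : ℝ) ≤ Real.log N ^ A → ∀ g : Finset ℕ → ℝ,
      (∀ D, 0 ≤ g D) → (∀ D, g D ≤ 1) → ∀ S ⊆ QS N 1 0 B,
      (c0 * ((Uni.WW w : ℝ) / Nat.totient (Uni.WW w)) / Real.log N) ^ k *
          (∑ D ∈ (Ioc u (u + H) \ B).powersetCard k, g D *
            ((S.filter (fun n => ∀ d ∈ D, Nat.Coprime (Uni.WW w) (n + d))).card : ℝ)) -
          ε * ((H / Real.log N) ^ k * (N / Real.log N ^ b * Uni.CT B)) ≤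
        ∑ D ∈ (Ioc u (u + H) \ B).powersetCard k, g D * ((FS N S D).card : ℝ) ∧
      ∀ κ : ℝ, 0 ≤ κ → κ ≤ 1 → (∀ ν : ℕ, ν < Uni.WW w → OK (Uni.WW w) ν B →
        κ * Ew N (Uni.WW w) B ≤ ((S.filter (fun n => n % Uni.WW w = ν)).card : ℝ)) →
        κ * c0 ^ k * (∑ D ∈ (Ioc u (u + H) \ B).powersetCard k, g D *
            (N / Real.log N ^ (b + k) * Uni.CT (B ∪ D))) -
          ε * ((H / Real.log N) ^ k * (N / Real.log N ^ b * Uni.CT B)) ≤
        ∑ D ∈ (Ioc u (u + H) \ B).powersetCard k, g D * ((FS N S D).card : ℝ) := by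
  obtain ⟨c0, hc0, hc1, HF⟩ := famL
  refine ⟨c0, hc0, hc1, fun b k ε hε => ?_⟩
  obtain ⟨η, hηd⟩ : ∃ η : ℝ, η = min 1 (ε / (2 * 6 ^ k)) := ⟨_, rfl⟩
  have hη0 : 0 < η := by rw [hηd]; exact lt_min one_pos (by positivity)
  have hη1 : η ≤ 1 := by rw [hηd]; exact min_le_left _ _
  have hηε : 2 * η * 6 ^ k ≤ ε := by
    have h1 : η ≤ ε / (2 * 6 ^ k) := by rw [hηd]; exact min_le_right _ _
    rw [le_div_iff₀ (by positivity)] at h1
    linarith
  obtain ⟨K, hK, w0, H1⟩ := HF b η hη0 hη1 k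
  refine ⟨K, hK, w0, fun w hw A hA => ?_⟩
  obtain ⟨N1, hN1⟩ := H1 w hw A hA
  have tp : Tendsto (fun N : ℕ => (N : ℝ) ^ (1 / 16 : ℝ)) atTop atTop :=
    (tendsto_rpow_atTop (by norm_num)).comp tendsto_natCast_atTop_atTop
  obtain ⟨N₀, hN₀⟩ := eventually_atTop.1 ((tp.eventually_gt_atTop (w : ℝ)).and (eventually_ge_atTop (max N1 3)))
  refine ⟨N₀, fun N hN B hBb hBA u H hKH hHA g hg0 hg1 S hS => ?_⟩
  obtain ⟨l1, l2⟩ := hN₀ N hN
  have hNN1 : N1 ≤ N := (le_max_left _ _).trans l2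
  have hN3 : 3 ≤ N := (le_max_right _ _).trans l2
  have hN1' : 1 ≤ N := by omega
  have hN3R : (3 : ℝ) ≤ N := by exact_mod_cast hN3
  have hfam := fun ν hν hOK => hN1 N hNN1 B hBb hBA ν hν hOK u H hKH hHA
  set L := Real.log (N : ℝ) with hL
  have hL0 : 0 < L := Real.log_pos (by linarith)
  obtain ⟨W, hW⟩ : ∃ W, W = Uni.WW w := ⟨_, rfl⟩
  rw [← hW] at hfam ⊢
  have hWpos : 0 < W := by rw [hW]; exact Uni.WW_pos w
  have hφ0 : (0 : ℝ) < Nat.totient W := by exact_mod_cast Nat.totient_pos.2 hWpos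
  have hW0 : (0 : ℝ) < W := by exact_mod_cast hWpos
  obtain ⟨P, hP⟩ : ∃ P, P = (Ioc u (u + H) \ B).powersetCard k := ⟨_, rfl⟩
  rw [← hP]
  obtain ⟨Sν, hSν⟩ : ∃ Sν : ℕ → Finset ℕ, ∀ ν, Sν ν = S.filter (fun n => n % W = ν) := ⟨_, fun _ => rfl⟩
  have hSQ : ∀ ν, Sν ν ⊆ QS N W ν B := by
    intro ν n hn
    rw [hSν, mem_filter] at hn
    have h1 := hS hn.1
    unfold QS at h1 ⊢
    rw [mem_filter] at h1 ⊢
    exact ⟨h1.1, hn.2, h1.2.2⟩
  have hSe : ∀ ν, ¬ OK W ν B → Sν ν = ∅ := by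
    intro ν hOK
    rw [eq_empty_iff_forall_notMem]
    intro n hn
    apply hOK
    have h1 := hSQ ν hn
    unfold QS at h1
    rw [mem_filter] at h1
    intro t ht
    rw [cop_shift h1.2.1]
    apply Nat.coprime_of_dvd
    intro p hp hpW hpn
    have h2 := h1.2.2 t ht p hp hpn
    rw [hW, dvd_WW hp] at hpW
    have h3 : (p : ℝ) ≤ w := by exact_mod_cast hpW
    linarith
  have hFe : ∀ ν, ∀ D ∈ P, ((FS N (Sν ν) D).card : ℝ) * g D ≥ 0 := by
    intro ν D _
    exact mul_nonneg (Nat.cast_nonneg _) (hg0 D)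
  -- the right-hand side
  have e1 : ∑ ν ∈ range W, ∑ D ∈ P, g D * ((FS N (Sν ν) D).card : ℝ) = ∑ D ∈ P, g D * ((FS N S D).card : ℝ) := by
    rw [sum_comm]
    apply sum_congr rfl
    intro D _
    unfold FS
    rw [← mul_sum, fiber_sum S hWpos (fun n => ∀ d ∈ D, AP N (n + d)), Nat.cast_sum]
    simp only [hSν]
  have r1 : ∀ ν, ∑ D ∈ P.filter (fun D => OK W ν D), g D * ((FS N (Sν ν) D).card : ℝ) ≤
      ∑ D ∈ P, g D * ((FS N (Sν ν) D).card : ℝ) := by
    intro ν
    apply sum_le_sum_of_subset_of_nonneg (filter_subset _ _)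
    intro D _ _
    exact mul_nonneg (hg0 D) (Nat.cast_nonneg _)
  -- the error
  have hh0 : 0 ≤ (H / L) ^ k := by positivity
  have e3 : ∑ ν ∈ range W, (if OK W ν B then ε * ((H / L) ^ k * Ew N W B) else 0) ≤
      ε * ((H / L) ^ k * (N / L ^ b * Uni.CT B)) := by
    rw [← sum_filter, ← mul_sum, ← mul_sum]
    apply mul_le_mul_of_nonneg_left _ hε.le
    apply mul_le_mul_of_nonneg_left _ hh0
    have h3 := Ew_sum (N := N) (w' := 0) (w := w) (a := 0) (T := B) hN1' (Nat.zero_le _)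
      (by rw [WW_zero]; exact one_pos) (by rw [WW_zero]; exact OK_one _ _)
    rw [WW_zero, ← hW] at h3
    have h4 : Ew N 1 B = N / L ^ b * Uni.CT B := by
      unfold Ew
      rw [gT_one, hBb, ← hL]
      norm_num
    rw [h4] at h3
    refine le_trans (le_of_eq ?_) h3
    apply sum_congr _ (fun _ _ => rfl)
    ext ν
    simp only [mem_filter, Nat.mod_one, true_and]
  constructor
  · have key : ∀ ν ∈ range W, (c0 * ((W : ℝ) / Nat.totient W) / L) ^ k *
        (∑ D ∈ P.filter (fun D => OK W ν D), g D * ((Sν ν).card : ℝ)) -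
        (if OK W ν B then ε * ((H / L) ^ k * Ew N W B) else 0) ≤
        ∑ D ∈ P, g D * ((FS N (Sν ν) D).card : ℝ) := by
      intro ν hν
      rw [mem_range] at hν
      by_cases hOK : OK W ν B
      · rw [if_pos hOK]
        have h1 := (hfam ν hν hOK (Sν ν) (hSQ ν)).lower g hg0 hg1
        rw [Jv_pow, ← hP, union_empty, FS_empty] at h1
        refine le_trans ?_ (h1.trans (r1 ν))
        have hE := Ew_nonneg (N := N) (W := W) (T := B) hN1'
        have h2 : η * 6 ^ k * (H / L) ^ k * Ew N W B ≤ ε * ((H / L) ^ k * Ew N W B) := by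
          have : η * 6 ^ k ≤ ε := by
            have : 0 ≤ η * 6 ^ k := by positivity
            linarith
          calc η * 6 ^ k * (H / L) ^ k * Ew N W B = η * 6 ^ k * ((H / L) ^ k * Ew N W B) := by ring
            _ ≤ _ := mul_le_mul_of_nonneg_right this (by positivity)
        have e : (c0 * ((W : ℝ) / Nat.totient W) / L) ^ k *
            (∑ D ∈ P.filter (fun D => OK W ν D), g D * ((Sν ν).card : ℝ)) =
            (c0 * ((W : ℝ) / Nat.totient W / L)) ^ k * (∑ D ∈ P.filter (fun D => OK W ν D), g D) *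
              ((Sν ν).card : ℝ) := by
          rw [← sum_mul, mul_div_assoc, mul_assoc]
        rw [e]
        linarith
      · rw [if_neg hOK, hSe ν hOK, card_empty, Nat.cast_zero]
        simp only [mul_zero, sum_const_zero, sub_zero]
        exact sum_nonneg fun D _ => mul_nonneg (hg0 D) (Nat.cast_nonneg _)
    have hsum := sum_le_sum key
    rw [sum_sub_distrib, ← mul_sum, e1] at hsum
    have e2 : ∑ ν ∈ range W, ∑ D ∈ P.filter (fun D => OK W ν D), g D * ((Sν ν).card : ℝ) =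
        ∑ D ∈ P, g D * ((S.filter (fun n => ∀ d ∈ D, Nat.Coprime W (n + d))).card : ℝ) := by
      have h1 : ∀ ν ∈ range W, ∑ D ∈ P.filter (fun D => OK W ν D), g D * ((Sν ν).card : ℝ) =
          ∑ D ∈ P, g D * (((Sν ν).filter (fun n => ∀ d ∈ D, Nat.Coprime W (n + d))).card : ℝ) := by
        intro ν _
        rw [sum_filter]
        apply sum_congr rfl
        intro D _
        by_cases hc : OK W ν D
        · rw [if_pos hc]
          congr 2
          rw [filter_true_of_mem]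
          intro n hn d hd
          rw [hSν, mem_filter] at hn
          exact (cop_shift hn.2).1 (hc d hd)
        · rw [if_neg hc]
          rw [filter_false_of_mem, card_empty, Nat.cast_zero, mul_zero]
          intro n hn h3
          rw [hSν, mem_filter] at hn
          exact hc fun d hd => (cop_shift hn.2).2 (h3 d hd)
      rw [sum_congr rfl h1, sum_comm]
      apply sum_congr rfl
      intro D _
      rw [← mul_sum, fiber_sum S hWpos (fun n => ∀ d ∈ D, Nat.Coprime W (n + d)), Nat.cast_sum]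
      simp only [hSν]
    rw [e2] at hsum
    linarith
  · intro κ hκ0 hκ1 hκ
    have key : ∀ ν ∈ range W, κ * c0 ^ k * (∑ D ∈ P, if OK W ν (B ∪ D) then g D * Ew N W (B ∪ D) else 0) -
        (if OK W ν B then ε * ((H / L) ^ k * Ew N W B) else 0) ≤
        ∑ D ∈ P, g D * ((FS N (Sν ν) D).card : ℝ) := by
      intro ν hν
      rw [mem_range] at hν
      by_cases hOK : OK W ν B
      · rw [if_pos hOK]
        have h0 := hκ ν hν hOK
        have h1 := (hfam ν hν hOK (Sν ν) (hSQ ν)).both hκ0 hκ1 (by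
          rw [union_empty, FS_empty, hSν]
          exact h0) g hg0 hg1
        rw [Jv_pow, ← hP, union_empty] at h1
        refine le_trans ?_ (h1.trans (r1 ν))
        have hE := Ew_nonneg (N := N) (W := W) (T := B) hN1'
        have h2 : 2 * η * 6 ^ k * (H / L) ^ k * Ew N W B ≤ ε * ((H / L) ^ k * Ew N W B) := by
          calc 2 * η * 6 ^ k * (H / L) ^ k * Ew N W B = 2 * η * 6 ^ k * ((H / L) ^ k * Ew N W B) := by ring
            _ ≤ _ := mul_le_mul_of_nonneg_right hηε (by positivity)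
        have e : (∑ D ∈ P, if OK W ν (B ∪ D) then g D * Ew N W (B ∪ D) else 0) =
            ∑ D ∈ P.filter (fun D => OK W ν D), g D * Ew N W (B ∪ D) := by
          rw [sum_filter]
          apply sum_congr rfl
          intro D _
          by_cases hD : OK W ν D
          · rw [if_pos hD, if_pos (OK_union.2 ⟨hOK, hD⟩)]
          · rw [if_neg hD, if_neg (fun h => hD (OK_union.1 h).2)]
        rw [e]
        linarith
      · rw [if_neg hOK]
        have e : (∑ D ∈ P, if OK W ν (B ∪ D) then g D * Ew N W (B ∪ D) else 0) = 0 := by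
          apply sum_eq_zero
          intro D _
          rw [if_neg (fun h => hOK (OK_union.1 h).1)]
        rw [e, mul_zero, sub_zero]
        exact sum_nonneg fun D _ => mul_nonneg (hg0 D) (Nat.cast_nonneg _)
    have hsum := sum_le_sum key
    rw [sum_sub_distrib, ← mul_sum, e1] at hsum
    have e2 : ∑ D ∈ P, g D * (N / L ^ (b + k) * Uni.CT (B ∪ D)) ≤
        ∑ ν ∈ range W, ∑ D ∈ P, (if OK W ν (B ∪ D) then g D * Ew N W (B ∪ D) else 0) := by
      rw [sum_comm]
      apply sum_le_sum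
      intro D hD
      rw [← sum_filter, ← mul_sum]
      apply mul_le_mul_of_nonneg_left _ (hg0 D)
      rw [hP, mem_powersetCard] at hD
      have hcard : (B ∪ D).card = b + k := by
        rw [card_union_of_disjoint, hBb, hD.2]
        rw [disjoint_left]
        intro a ha hb
        have := hD.1 hb
        rw [Finset.mem_sdiff] at this
        exact this.2 ha
      have h2 := Ew_sum_ge (N := N) (w' := 0) (w := w) (a := 0) (T := B ∪ D) hN1' (Nat.zero_le _)
        (by rw [WW_zero]; exact one_pos) (by rw [WW_zero]; exact OK_one _ _)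
      rw [WW_zero, ← hW] at h2
      have h3 : Ew N 1 (B ∪ D) = N / L ^ (b + k) * Uni.CT (B ∪ D) := by
        unfold Ew
        rw [gT_one, hcard, ← hL, Nat.cast_one, div_one]
      rw [h3] at h2
      refine h2.trans (le_of_eq ?_)
      apply sum_congr _ (fun _ _ => rfl)
      ext ν
      simp only [mem_filter, Nat.mod_one, true_and]
    have e4 := mul_le_mul_of_nonneg_left e2 (show 0 ≤ κ * c0 ^ k by positivity)
    linarith

end Pool.Agent.L0h43.TE
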