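import Pool.Agent.L0h43.TD.PLe
import Pool.Agent.L0h43.TE.Abs

/-!
# Almost primes next to the elements of a set: the induction applies
-/

set_option autoImplicit false

namespace Pool.Agent.L0h43.TE

open Finset Filter Topology Pool.Agent.H387R2
open Pool.Agent.L0h43.TA Pool.Agent.L0h43.TB Pool.Agent.L0h43.TD
open Pool.Agent.H386R2.HL

open Classical in
/-- the elements `n` of `S` such that the `n + d` are almost primes -/
noncomputable def FS (N : ℕ) (S : Finset ℕ) (D : Finset ℕ) : Finset ℕ :=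
  S.filter (fun n => ∀ d ∈ D, AP N (n + d))

open Classical in
lemma FS_ins (N h : ℕ) (S D : Finset ℕ) : (FS N S D).filter (fun n => AP N (n + h)) = FS N S (insert h D) := by
  unfold FS
  ext n
  simp only [mem_filter, mem_insert, forall_eq_or_imp]
  tauto

lemma FS_empty (N : ℕ) (S : Finset ℕ) : FS N S ∅ = S := by
  classical
  unfold FS
  apply filter_true_of_mem
  intro n _ d hd
  exact absurd hd (notMem_empty d)

lemma FS_sub {N W ν : ℕ} {S B : Finset ℕ} (hN : 1 ≤ N) (hS : S ⊆ QS N W ν B) (D : Finset ℕ) :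
    FS N S D ⊆ QS N W ν (B ∪ D) := by
  classical
  have hNR : (1 : ℝ) ≤ N := by exact_mod_cast hN
  intro n hn
  unfold FS at hn
  rw [mem_filter] at hn
  have h1 := hS hn.1
  unfold QS at h1 ⊢
  rw [mem_filter] at h1 ⊢
  refine ⟨h1.1, h1.2.1, ?_⟩
  intro t ht p hp hpd
  rcases mem_union.1 ht with ht | ht
  · exact h1.2.2 t ht p hp hpd
  · refine le_trans ?_ ((hn.2 t ht).2 p hp hpd)
    exact Real.rpow_le_rpow_of_exponent_le hNR (by norm_num)

lemma Fam.succ {J : Finset ℕ} {E F : Finset ℕ → ℝ} {k : ℕ} {c ρ h η : ℝ} (H : Fam J E F k c ρ h η)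
    (up : ∀ D ⊆ J, D.card = k → ∀ g : ℕ → ℝ, (∀ x, 0 ≤ g x) → (∀ x, g x ≤ 1) →
      ∑ x ∈ J \ D, g x * E (insert x D) ≤ E D * (ρ * ∑ x ∈ J \ D, g x + η * h))
    (low : ∀ D ⊆ J, D.card = k → ∀ g : ℕ → ℝ, (∀ x, 0 ≤ g x) → (∀ x, g x ≤ 1) →
      c * ρ * (∑ x ∈ J \ D, g x) * F D - η * h * E D ≤ ∑ x ∈ J \ D, g x * F (insert x D)) :
    Fam J E F (k + 1) c ρ h η where
  c0 := H.c0
  c1 := H.c1
  ρ0 := H.ρ0
  h0 := H.h0
  η0 := H.η0
  η1 := H.η1
  E0 := H.E0
  F0 := H.F0
  card := H.card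
  up := fun D hD hk => by
    rcases Nat.lt_succ_iff_lt_or_eq.1 hk with h1 | h1
    · exact H.up D hD h1
    · exact up D hD h1
  low := fun D hD hk => by
    rcases Nat.lt_succ_iff_lt_or_eq.1 hk with h1 | h1
    · exact H.low D hD h1
    · exact low D hD h1

lemma sdiff_un (J B D : Finset ℕ) : (J \ B) \ D = J \ (B ∪ D) := by
  ext x
  simp only [Finset.mem_sdiff, mem_union]
  tauto

theorem famL : ∃ c0 : ℝ, 0 < c0 ∧ c0 ≤ 1 ∧ ∀ (b : ℕ) (η : ℝ), 0 < η → η ≤ 1 → ∀ k : ℕ,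
    ∃ K : ℝ, 1 ≤ K ∧ ∃ w0 : ℕ, ∀ w : ℕ, w0 ≤ w → ∀ A : ℝ, 0 ≤ A → ∃ N₀ : ℕ, ∀ N : ℕ, N₀ ≤ N →
      ∀ B : Finset ℕ, B.card = b → (∀ t ∈ B, (t : ℝ) ≤ Real.log N ^ A) →
      ∀ ν : ℕ, ν < Uni.WW w → OK (Uni.WW w) ν B →
      ∀ u H : ℕ, K * Real.log N ≤ H → ((u + H : ℕ) : ℝ) ≤ Real.log N ^ A → ∀ S ⊆ QS N (Uni.WW w) ν B,
      Fam (Jv (Uni.WW w) ν u H \ B) (fun D => Ew N (Uni.WW w) (B ∪ D)) (fun D => ((FS N S D).card : ℝ)) k
        c0 ((Uni.WW w : ℝ) / Nat.totient (Uni.WW w) / Real.log N) (H / Real.log N) η := by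
  classical
  obtain ⟨c0, hc0, hc1, HMT⟩ := MTL
  refine ⟨c0, hc0, hc1, fun b η hη hη1 k => ?_⟩
  have tL : Tendsto (fun N : ℕ => Real.log (N : ℝ)) atTop atTop :=
    Real.tendsto_log_atTop.comp tendsto_natCast_atTop_atTop
  induction k with
  | zero =>
    refine ⟨1, le_rfl, 0, fun w _ A hA => ?_⟩
    have hWpos : 0 < Uni.WW w := Uni.WW_pos w
    obtain ⟨N₀, hN₀⟩ := eventually_atTop.1 ((tL.eventually_ge_atTop (max 1 (Uni.WW w : ℝ))).and
      (eventually_ge_atTop 3))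
    refine ⟨N₀, fun N hN B hB hBA ν hν hOK u H hKH hHA S hS => ?_⟩
    obtain ⟨l1, l2⟩ := hN₀ N hN
    have hL1 : 1 ≤ Real.log N := (le_max_left _ _).trans l1
    have hLW : (Uni.WW w : ℝ) ≤ Real.log N := (le_max_right _ _).trans l1
    have hN1 : 1 ≤ N := by omega
    obtain ⟨W, hW⟩ : ∃ W, W = Uni.WW w := ⟨_, rfl⟩
    rw [← hW] at hWpos hLW ⊢
    have hW0 : (0 : ℝ) < W := by exact_mod_cast hWpos
    have hφ0 : (0 : ℝ) < Nat.totient W := by exact_mod_cast Nat.totient_pos.2 hWpos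
    set L := Real.log (N : ℝ) with hL
    have hL0 : 0 < L := by linarith
    rw [one_mul] at hKH
    have hH0 : (0 : ℝ) < H := by linarith
    refine ⟨hc0, hc1, by positivity, by positivity, hη.le, hη1, fun D => Ew_nonneg hN1, fun D => Nat.cast_nonneg _,
      ?_, fun D _ h => absurd h (Nat.not_lt_zero _), fun D _ h => absurd h (Nat.not_lt_zero _)⟩
    intro D _
    rw [sdiff_un]
    have h1 := Jv_card_le (ν := ν) (u := u) (H := H) hWpos (B ∪ D)
    calc (W : ℝ) / Nat.totient W / L * ((Jv W ν u H \ (B ∪ D)).card : ℝ) =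
        ((W : ℝ) / Nat.totient W * ((Jv W ν u H \ (B ∪ D)).card : ℝ)) / L := by ring
      _ ≤ (2 * H) / L := by
          apply div_le_div_of_nonneg_right _ hL0.le
          linarith
      _ = _ := by ring
  | succ k ih =>
    obtain ⟨K1, hK1, w1, H1⟩ := ih
    obtain ⟨K2, hK2, w2, H2⟩ := HMT (b + k) η hη hη1
    obtain ⟨w3, hw31, H3⟩ := star_avg (b + k) η hη
    refine ⟨max K1 K2, hK1.trans (le_max_left _ _), max w1 (max w2 w3), fun w hw A hA => ?_⟩
    have hww1 : w1 ≤ w := (le_max_left _ _).trans hw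
    have hww2 : w2 ≤ w := ((le_max_left _ _).trans (le_max_right _ _)).trans hw
    have hww3 : w3 ≤ w := ((le_max_right _ _).trans (le_max_right _ _)).trans hw
    obtain ⟨N1, hN1⟩ := H1 w hww1 A hA
    obtain ⟨N2, hN2⟩ := H2 w hww2 A hA
    obtain ⟨H0, hH0⟩ := H3 w hww3 A hA
    obtain ⟨N₀, hN₀⟩ := eventually_atTop.1 ((tL.eventually_ge_atTop (max 1 (H0 : ℝ))).and
      (eventually_ge_atTop (max (max N1 N2) 3)))
    refine ⟨N₀, fun N hN B hB hBA ν hν hOK u H hKH hHA S hS => ?_⟩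
    obtain ⟨l1, l2⟩ := hN₀ N hN
    have hL1 : 1 ≤ Real.log N := (le_max_left _ _).trans l1
    have hLH0 : (H0 : ℝ) ≤ Real.log N := (le_max_right _ _).trans l1
    have hNN1 : N1 ≤ N := ((le_max_left _ _).trans (le_max_left _ _)).trans l2
    have hNN2 : N2 ≤ N := ((le_max_right _ _).trans (le_max_left _ _)).trans l2
    have hN3 : 3 ≤ N := (le_max_right _ _).trans l2
    have hN1' : 1 ≤ N := by omega
    have hL0 : 0 < Real.log (N : ℝ) := by linarith
    have hKH1 : K1 * Real.log N ≤ H := (mul_le_mul_of_nonneg_right (le_max_left _ _) hL0.le).trans hKH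
    have hKH2 : K2 * Real.log N ≤ H := (mul_le_mul_of_nonneg_right (le_max_right _ _) hL0.le).trans hKH
    have hLH : Real.log N ≤ H := (le_mul_of_one_le_left hL0.le hK1).trans hKH1
    have hHpos : (0 : ℝ) < H := by linarith
    have hH0H : H0 ≤ H := by exact_mod_cast hLH0.trans hLH
    have hLAHA : Real.log N ^ A ≤ (H : ℝ) ^ A := Real.rpow_le_rpow hL0.le hLH hA
    have hfam := hN1 N hNN1 B hB hBA ν hν hOK u H hKH1 hHA S hS
    obtain ⟨W, hW⟩ : ∃ W, W = Uni.WW w := ⟨_, rfl⟩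
    rw [← hW] at hfam hν hOK hS ⊢
    have hWpos : 0 < W := by rw [hW]; exact Uni.WW_pos w
    have hW0 : (0 : ℝ) < W := by exact_mod_cast hWpos
    have hφ0 : (0 : ℝ) < Nat.totient W := by exact_mod_cast Nat.totient_pos.2 hWpos
    have hDprop : ∀ D ⊆ Jv W ν u H \ B, D.card = k → (B ∪ D).card = b + k ∧
        (∀ t ∈ B ∪ D, (t : ℝ) ≤ Real.log N ^ A) ∧ OK W ν (B ∪ D) := by
      intro D hD hDk
      refine ⟨?_, ?_, ?_⟩
      · rw [card_union_of_disjoint, hB, hDk]
        rw [disjoint_left]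
        intro a ha hb
        have := hD hb
        rw [Finset.mem_sdiff] at this
        exact this.2 ha
      · intro t ht
        rcases mem_union.1 ht with ht | ht
        · exact hBA t ht
        · have h1 := hD ht
          rw [Finset.mem_sdiff] at h1
          unfold Jv at h1
          rw [mem_filter, mem_Ioc] at h1
          have h2 : (t : ℝ) ≤ ((u + H : ℕ) : ℝ) := by exact_mod_cast h1.1.1.2
          exact h2.trans hHA
      · intro t ht
        rcases mem_union.1 ht with ht | ht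
        · exact hOK t ht
        · have h1 := hD ht
          rw [Finset.mem_sdiff] at h1
          unfold Jv at h1
          rw [mem_filter] at h1
          exact h1.1.2
    apply Fam.succ hfam
    · intro D hD hDk g hg0 hg1
      obtain ⟨p1, p2, p3⟩ := hDprop D hD hDk
      rw [sdiff_un]
      have h1 := hH0 H hH0H (B ∪ D) p1 ν (by rw [← hW]; exact hν) (by rw [← hW]; exact p3) u
        (fun t ht => (p2 t ht).trans hLAHA) (hHA.trans hLAHA) g hg0 hg1
      rw [← hW] at h1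
      set L := Real.log (N : ℝ) with hL
      have h2 := mul_le_mul_of_nonneg_left h1 (show 0 ≤ (N : ℝ) / L ^ (b + k + 1) by positivity)
      refine le_trans (le_of_eq ?_) (h2.trans (le_of_eq ?_))
      · rw [mul_sum]
        apply sum_congr rfl
        intro h hh
        rw [Finset.mem_sdiff] at hh
        simp only [Finset.union_insert]
        unfold Ew
        rw [card_insert_of_notMem hh.2, p1, ← hL]
        ring
      · unfold Ew
        rw [p1, ← hL, pow_succ L (b + k)]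
        field_simp
    · intro D hD hDk g hg0 hg1
      obtain ⟨p1, p2, p3⟩ := hDprop D hD hDk
      rw [sdiff_un]
      have h1 := hN2 N hNN2 (B ∪ D) p1 p2 ν (by rw [← hW]; exact hν) (by rw [← hW]; exact p3) u H hKH2 hHA g hg0 hg1
        (FS N S D) (by rw [← hW]; exact FS_sub hN1' hS D)
      rw [← hW] at h1
      simp only [FS_ins] at h1
      refine le_trans (le_of_eq ?_) h1
      ring

end Pool.Agent.L0h43.TE
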