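import Pool.Agent.L0h43.TE.Real

/-!
# Almost all sets of shifts
-/

set_option autoImplicit false

namespace Pool.Agent.L0h43.TE

open Finset Filter Topology Pool.Agent.H387R2
open Pool.Agent.L0h43.TA Pool.Agent.L0h43.TB Pool.Agent.L0h43.TD
open Pool.Agent.H386R2.HL

lemma CT_ne_sub {T : Finset ℕ} {h : ℕ} (hne : Uni.CT (insert h T) ≠ 0) : Uni.CT T ≠ 0 := by
  obtain ⟨w, hw⟩ : ∃ w, w = 2 * T.card ^ 2 + 1 := ⟨_, rfl⟩
  have h1 : Uni.gT (Uni.WW w) (insert h T) ≠ 0 := fun h0 => hne (CT_of_gT_zero h0)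
  have hmono : Uni.gT (Uni.WW w) (insert h T) ≤ Uni.gT (Uni.WW w) T := by
    unfold Uni.gT
    apply card_le_card
    intro m hm
    rw [mem_filter] at hm ⊢
    exact ⟨hm.1, fun t ht => hm.2 t (mem_insert_of_mem ht)⟩
  have hg : 0 < Uni.gT (Uni.WW w) T := by omega
  have h2 := CT_low (w := w) T (by omega) (by omega) hg
  intro h3
  rw [h3, zero_div] at h2
  have hW0 : (0 : ℝ) < Uni.WW w := by exact_mod_cast Uni.WW_pos w
  have h4 : (0 : ℝ) < 1 / (2 * (Uni.WW w : ℝ)) := by positivity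
  linarith

/-- the relative lower bound for a set of further shifts -/
lemma CT_rel_set (b k : ℕ) : ∃ c : ℝ, 0 < c ∧ ∀ B D : Finset ℕ, B.card = b → D.card = k → Disjoint B D →
    Uni.CT (B ∪ D) ≠ 0 → c * Uni.CT B ≤ Uni.CT (B ∪ D) := by
  classical
  induction k with
  | zero =>
    refine ⟨1, one_pos, fun B D _ hD _ _ => ?_⟩
    rw [card_eq_zero.1 hD, union_empty, one_mul]
  | succ k ih =>
    obtain ⟨c1, hc1, h1⟩ := ih
    obtain ⟨c2, hc2, h2⟩ := CT_rel (b + k)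
    refine ⟨c2 * c1, by positivity, fun B D hB hD hBD hne => ?_⟩
    obtain ⟨x, hx⟩ : D.Nonempty := by rw [← card_pos]; omega
    have hxB : x ∉ B := fun h => (disjoint_left.1 hBD) h hx
    have hD' : (D.erase x).card = k := by rw [card_erase_of_mem hx, hD]; rfl
    have hdis : Disjoint B (D.erase x) := disjoint_of_subset_right (erase_subset _ _) hBD
    have e : B ∪ D = insert x (B ∪ D.erase x) := by
      rw [← union_insert, insert_erase hx]
    rw [e] at hne ⊢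
    have h3 := h2 (B ∪ D.erase x) x (by rw [card_union_of_disjoint hdis, hB, hD']) (by
      rw [mem_union]
      rintro (h | h)
      · exact hxB h
      · exact notMem_erase x D h) hne
    have h4 := h1 B (D.erase x) hB hD' hdis (CT_ne_sub hne)
    calc c2 * c1 * Uni.CT B = c2 * (c1 * Uni.CT B) := by ring
      _ ≤ c2 * Uni.CT (B ∪ D.erase x) := mul_le_mul_of_nonneg_left h4 hc2.le
      _ ≤ _ := h3

open Classical in
/-- the bad sets of shifts -/
noncomputable def bdP (x c : ℝ) (a b k : ℕ) (I : Finset ℕ) : Finset (Finset ℕ) :=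
  ((I \ {a, b}).powersetCard k).filter (fun D => Uni.CT ({a, b} ∪ D) ≠ 0 ∧
    (cT x a b D : ℝ) < c ^ (k + 1) * (Uni.CT ({a, b} ∪ D) * (x / Real.log x ^ (k + 2))))

theorem pairsAE : ∃ c : ℝ, 0 < c ∧ c ≤ 1 ∧ ∀ (k : ℕ) (ε : ℝ), 0 < ε → ∃ K : ℝ, 1 ≤ K ∧ ∀ A : ℝ, 0 ≤ A →
    ∀ᶠ x : ℝ in atTop,
    ∀ a b : ℕ, a ≠ b → Uni.CT {a, b} ≠ 0 → (a : ℝ) ≤ Real.log x ^ A → (b : ℝ) ≤ Real.log x ^ A → ∀ u H : ℕ,
      K * Real.log x ≤ H → ((u + H : ℕ) : ℝ) ≤ Real.log x ^ A →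
      (∀ g : Finset ℕ → ℝ, (∀ D, 0 ≤ g D) → (∀ D, g D ≤ 1) →
      (c ^ (k + 1) * ∑ D ∈ (Ioc u (u + H) \ {a, b}).powersetCard k, g D * Uni.CT ({a, b} ∪ D) -
          ε * (H : ℝ) ^ k * Uni.CT {a, b}) * (x / Real.log x ^ (k + 2)) ≤
        ∑ D ∈ (Ioc u (u + H) \ {a, b}).powersetCard k, g D * (cT x a b D : ℝ)) ∧
      ((bdP x c a b k (Ioc u (u + H))).card : ℝ) ≤ ε * (H.choose k : ℝ) := by
  classical
  obtain ⟨c, hc0, hc1, HP⟩ := pairsR
  refine ⟨c / 2, by positivity, by linarith, fun k ε hε => ?_⟩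
  obtain ⟨c', hc', hrel⟩ := CT_rel_set 2 k
  have hf0 : (0 : ℝ) < k.factorial := by exact_mod_cast k.factorial_pos
  obtain ⟨e, he⟩ : ∃ e : ℝ, e = ε * c ^ (k + 1) * c' / (2 * (2 ^ k * k.factorial)) := ⟨_, rfl⟩
  have he0 : 0 < e := by rw [he]; positivity
  obtain ⟨K1, hK1, h1⟩ := HP k ε hε
  obtain ⟨K2, hK2, h2⟩ := HP k e he0
  refine ⟨max K1 K2, hK1.trans (le_max_left _ _), fun A hA => ?_⟩
  filter_upwards [h1 A hA, h2 A hA, Real.tendsto_log_atTop.eventually_ge_atTop (max 1 (2 * k : ℝ)),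
    eventually_gt_atTop 0] with x g1 g2 hlog hx0
  intro a b hab hCT haA hbA u H hKH hHA
  have hl1 : 1 ≤ Real.log x := (le_max_left _ _).trans hlog
  have hl2 : (2 * k : ℝ) ≤ Real.log x := (le_max_right _ _).trans hlog
  have hl0 : 0 < Real.log x := by linarith
  have hKH1 : K1 * Real.log x ≤ H := (mul_le_mul_of_nonneg_right (le_max_left _ _) hl0.le).trans hKH
  have hKH2 : K2 * Real.log x ≤ H := (mul_le_mul_of_nonneg_right (le_max_right _ _) hl0.le).trans hKH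
  have hlH : Real.log x ≤ H := (le_mul_of_one_le_left hl0.le hK1).trans hKH1
  have hkH : 2 * k ≤ H := by
    have : ((2 * k : ℕ) : ℝ) ≤ H := by push_cast; linarith
    exact_mod_cast this
  have hchoose := TB.pow_le_choose k H hkH
  have hCTpos : 0 < Uni.CT {a, b} := lt_of_le_of_ne (Uni.CT_nonneg _) (Ne.symm hCT)
  constructor
  · intro g hg0 hg1
    refine le_trans ?_ (g1 a b hab haA hbA u H hKH1 hHA g hg0 hg1)
    apply mul_le_mul_of_nonneg_right _ (by positivity)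
    apply sub_le_sub_right
    apply mul_le_mul_of_nonneg_right
    · exact pow_le_pow_left₀ (by positivity) (by linarith) _
    · exact sum_nonneg fun D _ => mul_nonneg (hg0 D) (Uni.CT_nonneg _)
  · obtain ⟨Bd, hBd⟩ : ∃ Bd, Bd = bdP x (c / 2) a b k (Ioc u (u + H)) := ⟨_, rfl⟩
    rw [← hBd]
    have hmain := g2 a b hab haA hbA u H hKH2 hHA (fun D => if D ∈ Bd then 1 else 0)
      (fun D => by split_ifs <;> norm_num) (fun D => by split_ifs <;> norm_num)
    obtain ⟨P, hP⟩ : ∃ P, P = (Ioc u (u + H) \ {a, b}).powersetCard k := ⟨_, rfl⟩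
    have hBdP : Bd ⊆ P := by
      rw [hBd, hP]
      unfold bdP
      exact filter_subset _ _
    rw [← hP] at hmain
    have hind : ∀ F : Finset ℕ → ℝ, ∑ D ∈ P, (if D ∈ Bd then (1 : ℝ) else 0) * F D = ∑ D ∈ Bd, F D := by
      intro F
      simp only [ite_mul, one_mul, zero_mul]
      rw [← sum_filter]
      apply sum_congr _ (fun _ _ => rfl)
      ext D
      rw [mem_filter]
      exact ⟨fun h => h.2, fun h => ⟨hBdP h, h⟩⟩
    rw [hind, hind] at hmain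
    obtain ⟨X, hX⟩ : ∃ X, X = x / Real.log x ^ (k + 2) := ⟨_, rfl⟩
    have hX0 : 0 < X := by rw [hX]; positivity
    rw [← hX] at hmain
    obtain ⟨G, hG⟩ : ∃ G, G = ∑ D ∈ Bd, Uni.CT ({a, b} ∪ D) := ⟨_, rfl⟩
    have hG0 : 0 ≤ G := by rw [hG]; exact sum_nonneg fun D _ => Uni.CT_nonneg _
    rw [← hG] at hmain
    have h3 : ∑ D ∈ Bd, (cT x a b D : ℝ) ≤ (1 / 2 * c ^ (k + 1) * G) * X := by
      have h4 : ∑ D ∈ Bd, (cT x a b D : ℝ) ≤ ∑ D ∈ Bd, (c / 2) ^ (k + 1) * (Uni.CT ({a, b} ∪ D) * X) := by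
        apply sum_le_sum
        intro D hD
        rw [hBd] at hD
        unfold bdP at hD
        rw [mem_filter] at hD
        rw [hX]
        exact hD.2.2.le
      rw [← mul_sum, ← sum_mul, ← hG] at h4
      refine h4.trans ?_
      have h5 : (c / 2) ^ (k + 1) ≤ 1 / 2 * c ^ (k + 1) := by
        rw [div_pow, pow_succ 2 k]
        have h6 : (1 : ℝ) ≤ 2 ^ k := one_le_pow₀ (by norm_num)
        rw [div_le_iff₀ (by positivity)]
        have h7 : 0 < c ^ (k + 1) := by positivity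
        nlinarith
      calc (c / 2) ^ (k + 1) * (G * X) ≤ (1 / 2 * c ^ (k + 1)) * (G * X) :=
            mul_le_mul_of_nonneg_right h5 (by positivity)
        _ = _ := by ring
    have h4 := le_of_mul_le_mul_right (hmain.trans h3) hX0
    have h5 : (Bd.card : ℝ) * (c' * Uni.CT {a, b}) ≤ G := by
      rw [hG, ← nsmul_eq_mul, ← sum_const]
      apply sum_le_sum
      intro D hD
      have hDP := hBdP hD
      rw [hBd] at hD
      unfold bdP at hD
      rw [mem_filter, mem_powersetCard] at hD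
      apply hrel {a, b} D (card_pair hab) hD.1.2 _ hD.2.1
      rw [disjoint_left]
      intro t ht1 ht2
      have := hD.1.1 ht2
      rw [Finset.mem_sdiff] at this
      exact this.2 ht1
    have h6 : 1 / 2 * c ^ (k + 1) * ((Bd.card : ℝ) * (c' * Uni.CT {a, b})) ≤ e * (H : ℝ) ^ k * Uni.CT {a, b} := by
      have h7 := mul_le_mul_of_nonneg_left h5 (show 0 ≤ 1 / 2 * c ^ (k + 1) by positivity)
      linarith
    have h7 : e * (H : ℝ) ^ k ≤ 1 / 2 * c ^ (k + 1) * c' * (ε * (H.choose k : ℝ)) := by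
      refine (mul_le_mul_of_nonneg_left hchoose he0.le).trans (le_of_eq ?_)
      rw [he]
      field_simp
    have h8 : (1 / 2 * c ^ (k + 1) * c' * Uni.CT {a, b}) * (Bd.card : ℝ) ≤
        (1 / 2 * c ^ (k + 1) * c' * Uni.CT {a, b}) * (ε * (H.choose k : ℝ)) := by
      calc (1 / 2 * c ^ (k + 1) * c' * Uni.CT {a, b}) * (Bd.card : ℝ) =
          1 / 2 * c ^ (k + 1) * ((Bd.card : ℝ) * (c' * Uni.CT {a, b})) := by ring
        _ ≤ e * (H : ℝ) ^ k * Uni.CT {a, b} := h6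
        _ ≤ (1 / 2 * c ^ (k + 1) * c' * (ε * (H.choose k : ℝ))) * Uni.CT {a, b} :=
          mul_le_mul_of_nonneg_right h7 hCTpos.le
        _ = _ := by ring
    exact le_of_mul_le_mul_left h8 (by positivity)

open Classical in
/-- the bad sets of shifts, for a set `S` of tuples -/
noncomputable def bdS (x c ε : ℝ) (W j k : ℕ) (T S I : Finset ℕ) : Finset (Finset ℕ) :=
  ((I \ T).powersetCard k).filter (fun D => ((S.filter (fun n => ∀ d ∈ D, APx x (n + d))).card : ℝ) <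
    (c * ((W : ℝ) / Nat.totient W) / Real.log x) ^ k *
      ((S.filter (fun n => ∀ d ∈ D, Nat.Coprime W (n + d))).card : ℝ) -
    ε * Uni.CT T * (x / Real.log x ^ (j + k)))

theorem baseAE : ∃ c0 : ℝ, 0 < c0 ∧ c0 ≤ 1 ∧ ∀ (j k : ℕ) (ε : ℝ), 0 < ε →
    ∃ K : ℝ, 1 ≤ K ∧ ∃ w0 : ℕ, ∀ w : ℕ, w0 ≤ w → ∀ A : ℝ, 0 ≤ A → ∀ᶠ x : ℝ in atTop,
      ∀ T : Finset ℕ, T.card = j → Uni.CT T ≠ 0 → (∀ t ∈ T, (t : ℝ) ≤ Real.log x ^ A) →
      ∀ u H : ℕ, K * Real.log x ≤ H → ((u + H : ℕ) : ℝ) ≤ Real.log x ^ A → ∀ S ⊆ RS x T,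
        ((bdS x c0 ε (Uni.WW w) j k T S (Ioc u (u + H))).card : ℝ) ≤ ε * (H.choose k : ℝ) := by
  classical
  obtain ⟨c0, hc0, hc1, HB⟩ := baseR
  refine ⟨c0, hc0, hc1, fun j k ε hε => ?_⟩
  have hf0 : (0 : ℝ) < k.factorial := by exact_mod_cast k.factorial_pos
  obtain ⟨e, he⟩ : ∃ e : ℝ, e = ε * ε / (2 ^ k * k.factorial) := ⟨_, rfl⟩
  have he0 : 0 < e := by rw [he]; positivity
  obtain ⟨K, hK, w0, h1⟩ := HB j k e he0
  refine ⟨K, hK, w0, fun w hw A hA => ?_⟩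
  filter_upwards [h1 w hw A hA, Real.tendsto_log_atTop.eventually_ge_atTop (max 1 (2 * k : ℝ)),
    eventually_gt_atTop 0] with x g1 hlog hx0
  intro T hTj hCT hTA u H hKH hHA S hS
  have hl1 : 1 ≤ Real.log x := (le_max_left _ _).trans hlog
  have hl2 : (2 * k : ℝ) ≤ Real.log x := (le_max_right _ _).trans hlog
  have hl0 : 0 < Real.log x := by linarith
  have hlH : Real.log x ≤ H := (le_mul_of_one_le_left hl0.le hK).trans hKH
  have hkH : 2 * k ≤ H := by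
    have : ((2 * k : ℕ) : ℝ) ≤ H := by push_cast; linarith
    exact_mod_cast this
  have hchoose := TB.pow_le_choose k H hkH
  have hCTpos : 0 < Uni.CT T := lt_of_le_of_ne (Uni.CT_nonneg _) (Ne.symm hCT)
  obtain ⟨W, hW⟩ : ∃ W, W = Uni.WW w := ⟨_, rfl⟩
  rw [← hW]
  obtain ⟨Bd, hBd⟩ : ∃ Bd, Bd = bdS x c0 ε W j k T S (Ioc u (u + H)) := ⟨_, rfl⟩
  rw [← hBd]
  have hmain := g1 T hTj hCT hTA u H hKH hHA (fun D => if D ∈ Bd then 1 else 0)
    (fun D => by split_ifs <;> norm_num) (fun D => by split_ifs <;> norm_num) S hS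
  rw [← hW] at hmain
  obtain ⟨P, hP⟩ : ∃ P, P = (Ioc u (u + H) \ T).powersetCard k := ⟨_, rfl⟩
  have hBdP : Bd ⊆ P := by
    rw [hBd, hP]
    unfold bdS
    exact filter_subset _ _
  rw [← hP] at hmain
  have hind : ∀ F : Finset ℕ → ℝ, ∑ D ∈ P, (if D ∈ Bd then (1 : ℝ) else 0) * F D = ∑ D ∈ Bd, F D := by
    intro F
    simp only [ite_mul, one_mul, zero_mul]
    rw [← sum_filter]
    apply sum_congr _ (fun _ _ => rfl)
    ext D
    rw [mem_filter]
    exact ⟨fun h => h.2, fun h => ⟨hBdP h, h⟩⟩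
  rw [hind, hind] at hmain
  have h2 : ∑ D ∈ Bd, ((S.filter (fun n => ∀ d ∈ D, APx x (n + d))).card : ℝ) ≤
      ∑ D ∈ Bd, ((c0 * ((W : ℝ) / Nat.totient W) / Real.log x) ^ k *
        ((S.filter (fun n => ∀ d ∈ D, Nat.Coprime W (n + d))).card : ℝ) -
        ε * Uni.CT T * (x / Real.log x ^ (j + k))) := by
    apply sum_le_sum
    intro D hD
    rw [hBd] at hD
    unfold bdS at hD
    rw [mem_filter] at hD
    exact hD.2.le
  rw [sum_sub_distrib, ← mul_sum, sum_const, nsmul_eq_mul] at h2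
  have e1 : e * ((H / Real.log x) ^ k * (Uni.CT T * (x / Real.log x ^ j))) =
      (e * (H : ℝ) ^ k) * (Uni.CT T * (x / Real.log x ^ (j + k))) := by
    rw [pow_add, div_pow]
    field_simp
  rw [e1] at hmain
  have h3 : ((Bd.card : ℝ) * ε) * (Uni.CT T * (x / Real.log x ^ (j + k))) ≤
      (e * (H : ℝ) ^ k) * (Uni.CT T * (x / Real.log x ^ (j + k))) := by
    have e2 : ((Bd.card : ℝ) * ε) * (Uni.CT T * (x / Real.log x ^ (j + k))) =
        (Bd.card : ℝ) * (ε * Uni.CT T * (x / Real.log x ^ (j + k))) := by ring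
    rw [e2]
    linarith
  have h4 := le_of_mul_le_mul_right h3 (by positivity)
  have h5 : e * (H : ℝ) ^ k ≤ ε * (ε * (H.choose k : ℝ)) := by
    refine (mul_le_mul_of_nonneg_left hchoose he0.le).trans (le_of_eq ?_)
    rw [he]
    field_simp
  have h6 : ε * (Bd.card : ℝ) ≤ ε * (ε * (H.choose k : ℝ)) := by linarith
  exact le_of_mul_le_mul_left h6 hε

end Pool.Agent.L0h43.TE
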