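import Pool.Agent.L0h43.TE.Base

/-!
# Sets of almost primes next to the elements of a set: real `x`
-/

set_option autoImplicit false

namespace Pool.Agent.L0h43.TE

open Finset Filter Topology Pool.Agent.H387R2
open Pool.Agent.L0h43.TA Pool.Agent.L0h43.TB Pool.Agent.L0h43.TD
open Pool.Agent.H386R2.HL

lemma pow_card {I : Finset ℕ} {u H : ℕ} (hI : I ⊆ Ioc u (u + H)) (k : ℕ) : ((I.powersetCard k).card : ℝ) ≤ (H : ℝ) ^ k := by
  rw [card_powersetCard]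
  have h1 : I.card ≤ H := by
    have := card_le_card hI
    rw [Nat.card_Ioc] at this
    omega
  have h2 : I.card.choose k ≤ I.card ^ k := Nat.choose_le_pow _ _
  have h3 : I.card ^ k ≤ H ^ k := Nat.pow_le_pow_left h1 k
  exact_mod_cast h2.trans h3

lemma RS_QS {x : ℝ} {T S : Finset ℕ} (hx : 1 ≤ x) (hN3 : 3 ≤ ⌊x⌋₊) (hS : S ⊆ RS x T) :
    S.filter (fun n => Nat.sqrt ⌊x⌋₊ < n) ⊆ QS ⌊x⌋₊ 1 0 T := by
  classical
  have a6 : (⌊x⌋₊ : ℝ) ≤ x := Nat.floor_le (by linarith)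
  obtain ⟨N, hN⟩ : ∃ N, N = ⌊x⌋₊ := ⟨_, rfl⟩
  rw [← hN] at a6 hN3 ⊢
  have hN3R : (3 : ℝ) ≤ N := by exact_mod_cast hN3
  have hN0 : (0 : ℝ) < N := by linarith
  intro n hn
  rw [mem_filter] at hn
  have h2 := hS hn.1
  unfold RS at h2
  rw [mem_filter, mem_Icc, ← hN] at h2
  unfold QS
  rw [mem_filter, mem_Ioc]
  refine ⟨⟨hn.2, h2.1.2⟩, Nat.mod_one _, fun t ht p hp hpd => ?_⟩
  rcases h2.2 t ht with h3 | h3
  · rw [Nat.prime_dvd_prime_iff_eq hp h3] at hpd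
    rw [hpd]
    have h4 : N < n * n := Nat.sqrt_lt.1 hn.2
    have h5 : (N : ℝ) ≤ (n : ℝ) ^ 2 := by
      rw [sq]; exact_mod_cast h4.le
    have h6 : (n : ℝ) ≤ ((n + t : ℕ) : ℝ) := by push_cast; linarith [Nat.cast_nonneg (α := ℝ) t]
    refine le_trans ?_ h6
    calc (N : ℝ) ^ (1 / 16 : ℝ) ≤ (N : ℝ) ^ (1 / 2 : ℝ) :=
          Real.rpow_le_rpow_of_exponent_le (by linarith) (by norm_num)
      _ ≤ ((n : ℝ) ^ 2) ^ (1 / 2 : ℝ) := Real.rpow_le_rpow hN0.le h5 (by norm_num)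
      _ = n := by
          rw [← Real.sqrt_eq_rpow, Real.sqrt_sq (Nat.cast_nonneg _)]
  · exact le_trans (Real.rpow_le_rpow hN0.le a6 (by norm_num)) (h3 p hp hpd)

open Classical in
theorem baseR : ∃ c0 : ℝ, 0 < c0 ∧ c0 ≤ 1 ∧ ∀ (j k : ℕ) (ε : ℝ), 0 < ε →
    ∃ K : ℝ, 1 ≤ K ∧ ∃ w0 : ℕ, ∀ w : ℕ, w0 ≤ w → ∀ A : ℝ, 0 ≤ A → ∀ᶠ x : ℝ in atTop,
      ∀ T : Finset ℕ, T.card = j → Uni.CT T ≠ 0 → (∀ t ∈ T, (t : ℝ) ≤ Real.log x ^ A) →
      ∀ u H : ℕ, K * Real.log x ≤ H → ((u + H : ℕ) : ℝ) ≤ Real.log x ^ A → ∀ g : Finset ℕ → ℝ,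
      (∀ D, 0 ≤ g D) → (∀ D, g D ≤ 1) → ∀ S ⊆ RS x T,
        (c0 * ((Uni.WW w : ℝ) / Nat.totient (Uni.WW w)) / Real.log x) ^ k *
          (∑ D ∈ (Ioc u (u + H) \ T).powersetCard k, g D *
            ((S.filter (fun n => ∀ d ∈ D, Nat.Coprime (Uni.WW w) (n + d))).card : ℝ)) -
          ε * ((H / Real.log x) ^ k * (Uni.CT T * (x / Real.log x ^ j))) ≤
        ∑ D ∈ (Ioc u (u + H) \ T).powersetCard k, g D * ((S.filter (fun n => ∀ d ∈ D, APx x (n + d))).card : ℝ) := by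
  obtain ⟨c0, hc0, hc1, HN⟩ := baseL
  refine ⟨c0, hc0, hc1, fun j k ε hε => ?_⟩
  obtain ⟨c, hc, hlow⟩ := CT_pos_low j
  obtain ⟨η, hη0, hη1, hη⟩ := choose_eta (j + k) 1 one_pos le_rfl
  obtain ⟨K, hK, w0, H0⟩ := HN j k (ε / 4) (by positivity)
  refine ⟨K, hK, w0, fun w hw A hA => ?_⟩
  obtain ⟨N₀, hN₀⟩ := H0 w hw (A + 1) (by linarith)
  obtain ⟨W, hW⟩ : ∃ W, W = Uni.WW w := ⟨_, rfl⟩
  have hWpos : 0 < W := by rw [hW]; exact Uni.WW_pos w
  have hφ1 : (1 : ℝ) ≤ Nat.totient W := by exact_mod_cast Nat.totient_pos.2 hWpos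
  have hφ0 : (0 : ℝ) < Nat.totient W := by linarith
  have hW0 : (0 : ℝ) < W := by exact_mod_cast hWpos
  filter_upwards [ev_real η A hη0 hA (max N₀ 3), ev_19, ev_small (ε * c / (2 * W ^ k)) (by positivity) ((j : ℕ) : ℝ)]
    with x h1 h19 hsm
  obtain ⟨a1, a2, a3, a4, a5, a6, a7⟩ := h1
  intro T hTj hCT hTA u H hKH hHA g hg0 hg1 S hS
  have hAP : ∀ m, AP ⌊x⌋₊ m → APx x m := by
    intro m hm
    exact ⟨hm.1, fun p hp hpd => h19.trans (hm.2 p hp hpd)⟩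
  rw [Real.rpow_natCast] at hsm
  have hS'Q := RS_QS a7 ((le_max_right _ _).trans a1) hS
  have hRS : ∀ n ∈ S, 1 ≤ n := by
    intro n hn
    have h6 := hS hn
    unfold RS at h6
    rw [mem_filter, mem_Icc] at h6
    exact h6.1.1
  obtain ⟨N, hN⟩ : ∃ N, N = ⌊x⌋₊ := ⟨_, rfl⟩
  rw [← hN] at a1 a2 a3 a4 a5 a6 hAP hS'Q
  set L := Real.log (N : ℝ) with hL
  set l := Real.log x with hl
  have hL0 : 0 < L := by linarith
  have hl0 : 0 < l := by linarith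
  have hx0 : 0 < x := by linarith
  have hN0 : (0 : ℝ) < N := by
    have : (3 : ℝ) ≤ N := by exact_mod_cast (le_max_right _ _).trans a1
    linarith
  have hKL : K * L ≤ H := (mul_le_mul_of_nonneg_left a3 (by linarith)).trans hKH
  have hH0 : (0 : ℝ) < H := lt_of_lt_of_le (by positivity) hKL
  obtain ⟨S', hS'⟩ : ∃ S', S' = S.filter (fun n => Nat.sqrt N < n) := ⟨_, rfl⟩
  rw [← hS'] at hS'Q
  have hS'S : S' ⊆ S := by rw [hS']; exact filter_subset _ _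
  have hmain := (hN₀ N ((le_max_left _ _).trans a1) T hTj (fun t ht => (hTA t ht).trans a5) u H hKL (hHA.trans a5)
    g hg0 hg1 S' hS'Q).1
  rw [← hL, ← hW] at hmain
  rw [← hW]
  obtain ⟨P, hP⟩ : ∃ P, P = (Ioc u (u + H) \ T).powersetCard k := ⟨_, rfl⟩
  rw [← hP] at hmain ⊢
  have hPH : (P.card : ℝ) ≤ (H : ℝ) ^ k := by
    rw [hP]
    exact pow_card sdiff_subset k
  -- right-hand side
  have r1 : ∑ D ∈ P, g D * ((FS N S' D).card : ℝ) ≤
      ∑ D ∈ P, g D * ((S.filter (fun n => ∀ d ∈ D, APx x (n + d))).card : ℝ) := by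
    apply sum_le_sum
    intro D _
    apply mul_le_mul_of_nonneg_left _ (hg0 D)
    have : FS N S' D ⊆ S.filter (fun n => ∀ d ∈ D, APx x (n + d)) := by
      intro n hn
      unfold FS at hn
      rw [mem_filter] at hn ⊢
      exact ⟨hS'S hn.1, fun d hd => hAP _ (hn.2 d hd)⟩
    exact_mod_cast card_le_card this
  -- left-hand side
  have r2 : ∑ D ∈ P, g D * ((S.filter (fun n => ∀ d ∈ D, Nat.Coprime W (n + d))).card : ℝ) ≤
      ∑ D ∈ P, g D * ((S'.filter (fun n => ∀ d ∈ D, Nat.Coprime W (n + d))).card : ℝ) + (H : ℝ) ^ k * x ^ (1 / 2 : ℝ) := by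
    have h2 : ∀ D ∈ P, g D * ((S.filter (fun n => ∀ d ∈ D, Nat.Coprime W (n + d))).card : ℝ) ≤
        g D * ((S'.filter (fun n => ∀ d ∈ D, Nat.Coprime W (n + d))).card : ℝ) + x ^ (1 / 2 : ℝ) := by
      intro D _
      have h3 : (S.filter (fun n => ∀ d ∈ D, Nat.Coprime W (n + d))).card ≤
          (S'.filter (fun n => ∀ d ∈ D, Nat.Coprime W (n + d))).card + Nat.sqrt N := by
        have h4 : S.filter (fun n => ∀ d ∈ D, Nat.Coprime W (n + d)) ⊆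
            S'.filter (fun n => ∀ d ∈ D, Nat.Coprime W (n + d)) ∪ Icc 1 (Nat.sqrt N) := by
          intro n hn
          rw [mem_filter] at hn
          rw [mem_union, mem_filter, mem_Icc, hS', mem_filter]
          by_cases h5 : Nat.sqrt N < n
          · left; exact ⟨⟨hn.1, h5⟩, hn.2⟩
          · right
            exact ⟨hRS n hn.1, by omega⟩
        have h5 := (card_le_card h4).trans (card_union_le _ _)
        rwa [Nat.card_Icc, Nat.add_sub_cancel] at h5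
      have h4 : ((S.filter (fun n => ∀ d ∈ D, Nat.Coprime W (n + d))).card : ℝ) ≤
          ((S'.filter (fun n => ∀ d ∈ D, Nat.Coprime W (n + d))).card : ℝ) + (Nat.sqrt N : ℝ) := by exact_mod_cast h3
      have h5 : (Nat.sqrt N : ℝ) ≤ x ^ (1 / 2 : ℝ) := by
        rw [← Real.sqrt_eq_rpow]
        exact (Real.nat_sqrt_le_real_sqrt).trans (Real.sqrt_le_sqrt a6)
      have h6 := mul_le_mul_of_nonneg_left (h4.trans (add_le_add le_rfl h5)) (hg0 D)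
      rw [mul_add] at h6
      have h7 : g D * x ^ (1 / 2 : ℝ) ≤ x ^ (1 / 2 : ℝ) := mul_le_of_le_one_left (by positivity) (hg1 D)
      linarith
    refine (sum_le_sum h2).trans ?_
    rw [sum_add_distrib, sum_const, nsmul_eq_mul]
    exact add_le_add le_rfl (mul_le_mul_of_nonneg_right hPH (by positivity))
  obtain ⟨Q, hQ⟩ : ∃ Q, Q = ∑ D ∈ P, g D * ((S.filter (fun n => ∀ d ∈ D, Nat.Coprime W (n + d))).card : ℝ) :=
    ⟨_, rfl⟩
  obtain ⟨Q', hQ'⟩ : ∃ Q', Q' = ∑ D ∈ P, g D * ((S'.filter (fun n => ∀ d ∈ D, Nat.Coprime W (n + d))).card : ℝ) :=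
    ⟨_, rfl⟩
  rw [← hQ, ← hQ'] at r2
  rw [← hQ'] at hmain
  rw [← hQ]
  have hQ'0 : 0 ≤ Q' := by
    rw [hQ']; exact sum_nonneg fun D _ => mul_nonneg (hg0 D) (Nat.cast_nonneg _)
  have hCTc : c ≤ Uni.CT T := hlow T hTj hCT
  have hCT0 := Uni.CT_nonneg T
  have hxk : (H / L) ^ k * (N / L ^ j) ≤ 2 * ((H / l) ^ k * (x / l ^ j)) := by
    have h3 : (N : ℝ) / L ^ (j + k) ≤ (1 + η) ^ (j + k) * (x / l ^ (j + k)) := by
      rw [mul_div_assoc', div_le_div_iff₀ (by positivity) (by positivity)]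
      have : l ^ (j + k) ≤ ((1 + η) * L) ^ (j + k) := pow_le_pow_left₀ hl0.le a4 _
      calc (N : ℝ) * l ^ (j + k) ≤ x * ((1 + η) * L) ^ (j + k) := mul_le_mul a6 this (by positivity) hx0.le
        _ = _ := by rw [mul_pow]; ring
    have h4 : (N : ℝ) / L ^ (j + k) ≤ 2 * (x / l ^ (j + k)) := by
      refine h3.trans (mul_le_mul_of_nonneg_right ?_ (by positivity))
      linarith
    have e1 : (H / L) ^ k * (N / L ^ j) = N / L ^ (j + k) * (H : ℝ) ^ k := by rw [pow_add, div_pow]; field_simp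
    have e2 : 2 * ((H / l) ^ k * (x / l ^ j)) = 2 * (x / l ^ (j + k)) * (H : ℝ) ^ k := by
      rw [pow_add, div_pow]; field_simp
    rw [e1, e2]
    exact mul_le_mul_of_nonneg_right h4 (by positivity)
  have f1 : ε / 4 * ((H / L) ^ k * (N / L ^ j * Uni.CT T)) ≤ ε / 2 * ((H / l) ^ k * (Uni.CT T * (x / l ^ j))) := by
    have h2 := mul_le_mul_of_nonneg_left hxk (show 0 ≤ ε / 4 * Uni.CT T by positivity)
    calc ε / 4 * ((H / L) ^ k * (N / L ^ j * Uni.CT T)) = ε / 4 * Uni.CT T * ((H / L) ^ k * (N / L ^ j)) := by ring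
      _ ≤ ε / 4 * Uni.CT T * (2 * ((H / l) ^ k * (x / l ^ j))) := h2
      _ = _ := by ring
  have f2 : (c0 * ((W : ℝ) / Nat.totient W) / l) ^ k * ((H : ℝ) ^ k * x ^ (1 / 2 : ℝ)) ≤
      ε / 2 * ((H / l) ^ k * (Uni.CT T * (x / l ^ j))) := by
    have h2 : (W : ℝ) / Nat.totient W ≤ W := div_le_self hW0.le hφ1
    have h3 : c0 * ((W : ℝ) / Nat.totient W) ≤ W := by
      calc c0 * ((W : ℝ) / Nat.totient W) ≤ 1 * W := mul_le_mul hc1 h2 (by positivity) zero_le_one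
        _ = W := one_mul _
    have h4 : x ^ (1 / 2 : ℝ) * l ^ j ≤ ε * c / (2 * W ^ k) * x := by
      calc x ^ (1 / 2 : ℝ) * l ^ j ≤ x ^ (1 / 2 : ℝ) * (ε * c / (2 * W ^ k) * x ^ (1 / 2 : ℝ)) :=
            mul_le_mul_of_nonneg_left hsm (by positivity)
        _ = ε * c / (2 * W ^ k) * (x ^ (1 / 2 : ℝ) * x ^ (1 / 2 : ℝ)) := by ring
        _ = _ := by rw [← Real.rpow_add hx0]; norm_num
    have h5 : (W : ℝ) ^ k * x ^ (1 / 2 : ℝ) ≤ ε / 2 * (c * (x / l ^ j)) := by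
      rw [mul_div_assoc', mul_div_assoc', le_div_iff₀ (by positivity)]
      calc (W : ℝ) ^ k * x ^ (1 / 2 : ℝ) * l ^ j = W ^ k * (x ^ (1 / 2 : ℝ) * l ^ j) := by ring
        _ ≤ W ^ k * (ε * c / (2 * W ^ k) * x) := mul_le_mul_of_nonneg_left h4 (by positivity)
        _ = _ := by field_simp
    have h6 : (c0 * ((W : ℝ) / Nat.totient W)) ^ k ≤ W ^ k := pow_le_pow_left₀ (by positivity) h3 k
    calc (c0 * ((W : ℝ) / Nat.totient W) / l) ^ k * ((H : ℝ) ^ k * x ^ (1 / 2 : ℝ)) =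
        (c0 * ((W : ℝ) / Nat.totient W)) ^ k * (x ^ (1 / 2 : ℝ) * (H / l) ^ k) := by
          rw [div_pow, div_pow]; ring
      _ ≤ W ^ k * (x ^ (1 / 2 : ℝ) * (H / l) ^ k) := mul_le_mul_of_nonneg_right h6 (by positivity)
      _ = (W ^ k * x ^ (1 / 2 : ℝ)) * (H / l) ^ k := by ring
      _ ≤ (ε / 2 * (c * (x / l ^ j))) * (H / l) ^ k := mul_le_mul_of_nonneg_right h5 (by positivity)
      _ ≤ (ε / 2 * (Uni.CT T * (x / l ^ j))) * (H / l) ^ k := by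
          apply mul_le_mul_of_nonneg_right _ (by positivity)
          apply mul_le_mul_of_nonneg_left _ (by positivity)
          exact mul_le_mul_of_nonneg_right hCTc (by positivity)
      _ = _ := by ring
  have f3 : (c0 * ((W : ℝ) / Nat.totient W) / l) ^ k * Q ≤ (c0 * ((W : ℝ) / Nat.totient W) / L) ^ k * Q' +
      (c0 * ((W : ℝ) / Nat.totient W) / l) ^ k * ((H : ℝ) ^ k * x ^ (1 / 2 : ℝ)) := by
    have h2 := mul_le_mul_of_nonneg_left r2 (show 0 ≤ (c0 * ((W : ℝ) / Nat.totient W) / l) ^ k by positivity)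
    rw [mul_add] at h2
    refine h2.trans (add_le_add ?_ le_rfl)
    apply mul_le_mul_of_nonneg_right _ hQ'0
    apply pow_le_pow_left₀ (by positivity)
    exact div_le_div_of_nonneg_left (by positivity) hL0 a3
  linarith

open Classical in
/-- `n + a` prime, `n + b` and the `n + d` almost primes -/
noncomputable def cT (x : ℝ) (a b : ℕ) (D : Finset ℕ) : ℕ :=
  ((Icc 1 ⌊x⌋₊).filter (fun n => (n + a).Prime ∧ APx x (n + b) ∧ ∀ d ∈ D, APx x (n + d))).card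

theorem pairsR : ∃ c : ℝ, 0 < c ∧ c ≤ 1 ∧ ∀ (k : ℕ) (ε : ℝ), 0 < ε → ∃ K : ℝ, 1 ≤ K ∧ ∀ A : ℝ, 0 ≤ A →
    ∀ᶠ x : ℝ in atTop,
    ∀ a b : ℕ, a ≠ b → (a : ℝ) ≤ Real.log x ^ A → (b : ℝ) ≤ Real.log x ^ A → ∀ u H : ℕ,
      K * Real.log x ≤ H → ((u + H : ℕ) : ℝ) ≤ Real.log x ^ A → ∀ g : Finset ℕ → ℝ,
      (∀ D, 0 ≤ g D) → (∀ D, g D ≤ 1) →
      (c ^ (k + 1) * ∑ D ∈ (Ioc u (u + H) \ {a, b}).powersetCard k, g D * Uni.CT ({a, b} ∪ D) -
          ε * (H : ℝ) ^ k * Uni.CT {a, b}) * (x / Real.log x ^ (k + 2)) ≤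
        ∑ D ∈ (Ioc u (u + H) \ {a, b}).powersetCard k, g D * (cT x a b D : ℝ) := by
  classical
  obtain ⟨c0, hc0, hc1, HB⟩ := baseL
  obtain ⟨κ, hκ0, hκ1, HP⟩ := pairL
  refine ⟨min c0 (κ / 2), lt_min hc0 (by positivity), (min_le_left _ _).trans hc1, fun k ε hε => ?_⟩
  obtain ⟨c, hcd⟩ : ∃ c, c = min c0 (κ / 2) := ⟨_, rfl⟩
  have hc : 0 < c := by rw [hcd]; exact lt_min hc0 (by positivity)
  have hcc0 : c ≤ c0 := by rw [hcd]; exact min_le_left _ _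
  have hcκ : c ≤ κ / 2 := by rw [hcd]; exact min_le_right _ _
  rw [← hcd]
  obtain ⟨η, hη0, hη1, hη⟩ := choose_eta (2 + k) 1 one_pos le_rfl
  obtain ⟨K, hK, w0, H0⟩ := HB 2 k (ε / 2) (by positivity)
  obtain ⟨w, hw⟩ : ∃ w, w = max w0 8 := ⟨_, rfl⟩
  have hww0 : w0 ≤ w := by rw [hw]; exact le_max_left _ _
  have hw8 : 8 ≤ w := by rw [hw]; exact le_max_right _ _
  refine ⟨K, hK, fun A hA => ?_⟩
  obtain ⟨N1, hN1⟩ := H0 w hww0 (A + 1) (by linarith)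
  obtain ⟨N2, hN2⟩ := HP w hw8 (A + 1)
  have tp : Tendsto (fun x : ℝ => (⌊x⌋₊ : ℝ) ^ (1 / 4 : ℝ)) atTop atTop :=
    (tendsto_rpow_atTop (by norm_num)).comp (tendsto_natCast_atTop_atTop.comp tendsto_nat_floor_atTop)
  filter_upwards [ev_real η A hη0 hA (max (max N1 N2) 3), ev_19, eventually_ge_atTop (2 : ℝ),
    tp.eventually_ge_atTop 2] with x h1 h19 hx2 hx4
  obtain ⟨a1, a2, a3, a4, a5, a6, a7⟩ := h1
  intro a b hab haA hbA u H hKH hHA g hg0 hg1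
  have hxN1 := Nat.lt_floor_add_one x
  have hAP : ∀ m, AP ⌊x⌋₊ m → APx x m := by
    intro m hm
    exact ⟨hm.1, fun p hp hpd => h19.trans (hm.2 p hp hpd)⟩
  obtain ⟨N, hN⟩ : ∃ N, N = ⌊x⌋₊ := ⟨_, rfl⟩
  have hcTe : ∀ D, cT x a b D = ((Icc 1 N).filter (fun n => (n + a).Prime ∧ APx x (n + b) ∧
      ∀ d ∈ D, APx x (n + d))).card := fun D => by
    unfold cT
    rw [hN]
  rw [← hN] at a1 a2 a3 a4 a5 a6 hxN1 hAP hx4
  set L := Real.log (N : ℝ) with hL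
  set l := Real.log x with hl
  have hL0 : 0 < L := by linarith
  have hl0 : 0 < l := by linarith
  have hx0 : 0 < x := by linarith
  have hN1' : 1 ≤ N := by
    have := (le_max_right _ _).trans a1
    omega
  have hN3R : (3 : ℝ) ≤ N := by exact_mod_cast (le_max_right _ _).trans a1
  have hN0 : (0 : ℝ) < N := by linarith
  have hsqN : (N : ℝ) ^ (1 / 16 : ℝ) ≤ Nat.sqrt N := by
    have h1 : √(N : ℝ) < Nat.sqrt N + 1 := Real.real_sqrt_lt_nat_sqrt_succ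
    rw [Real.sqrt_eq_rpow] at h1
    have h2 : (N : ℝ) ^ (1 / 16 : ℝ) ≤ (N : ℝ) ^ (1 / 4 : ℝ) :=
      Real.rpow_le_rpow_of_exponent_le (by linarith) (by norm_num)
    have h3 : (N : ℝ) ^ (1 / 4 : ℝ) * (N : ℝ) ^ (1 / 4 : ℝ) = (N : ℝ) ^ (1 / 2 : ℝ) := by
      rw [← Real.rpow_add hN0]; norm_num
    nlinarith
  have hKL : K * L ≤ H := (mul_le_mul_of_nonneg_left a3 (by linarith)).trans hKH
  have hH0 : (0 : ℝ) < H := lt_of_lt_of_le (by positivity) hKL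
  have hT2 : ({a, b} : Finset ℕ).card = 2 := card_pair hab
  obtain ⟨S, hS⟩ : ∃ S, S = (Ioc (Nat.sqrt N) N).filter (fun n => (n + a).Prime ∧ AP N (n + b)) := ⟨_, rfl⟩
  have hSe : ∀ W ν, S.filter (fun n => n % W = ν) = PA N W ν a b := by
    intro W ν
    rw [hS]
    unfold PA
    ext n
    simp only [mem_filter]
    tauto
  have hSQ : S ⊆ QS N 1 0 {a, b} := by
    have h1 : S = PA N 1 0 a b := by
      rw [← hSe 1 0]
      symm
      apply filter_true_of_mem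
      intro n _
      exact Nat.mod_one n
    rw [h1]
    exact PA_sub hN1' hsqN
  have hTA : ∀ t ∈ ({a, b} : Finset ℕ), (t : ℝ) ≤ L ^ (A + 1) := by
    intro t ht
    rw [mem_insert, mem_singleton] at ht
    rcases ht with rfl | rfl
    · exact haA.trans a5
    · exact hbA.trans a5
  have hmain := (hN1 N (((le_max_left _ _).trans (le_max_left _ _)).trans a1) {a, b} hT2 hTA u H hKL (hHA.trans a5)
    g hg0 hg1 S hSQ).2 κ hκ0.le hκ1 (fun ν hν hOK => by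
      rw [hSe]
      exact hN2 N (((le_max_right _ _).trans (le_max_left _ _)).trans a1) a b hab (haA.trans a5) (hbA.trans a5) ν hν hOK)
  rw [← hL] at hmain
  obtain ⟨C, hC⟩ : ∃ C, C = Uni.CT {a, b} := ⟨_, rfl⟩
  have hC0 : 0 ≤ C := by rw [hC]; exact Uni.CT_nonneg _
  rw [← hC] at hmain ⊢
  obtain ⟨P, hP⟩ : ∃ P, P = (Ioc u (u + H) \ {a, b}).powersetCard k := ⟨_, rfl⟩
  rw [← hP] at hmain ⊢
  obtain ⟨G, hG⟩ : ∃ G, G = ∑ D ∈ P, g D * Uni.CT ({a, b} ∪ D) := ⟨_, rfl⟩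
  rw [← hG]
  have hG0 : 0 ≤ G := by rw [hG]; exact sum_nonneg fun D _ => mul_nonneg (hg0 D) (Uni.CT_nonneg _)
  have e2 : ∑ D ∈ P, g D * (N / L ^ (2 + k) * Uni.CT ({a, b} ∪ D)) = N / L ^ (2 + k) * G := by
    rw [hG, mul_sum]
    apply sum_congr rfl
    intro D _
    ring
  rw [e2] at hmain
  have hright : ∑ D ∈ P, g D * ((FS N S D).card : ℝ) ≤ ∑ D ∈ P, g D * (cT x a b D : ℝ) := by
    apply sum_le_sum
    intro D _
    apply mul_le_mul_of_nonneg_left _ (hg0 D)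
    rw [hcTe]
    have : FS N S D ⊆ (Icc 1 N).filter (fun n => (n + a).Prime ∧ APx x (n + b) ∧ ∀ d ∈ D, APx x (n + d)) := by
      intro n hn
      unfold FS at hn
      rw [mem_filter, hS, mem_filter, mem_Ioc] at hn
      rw [mem_filter, mem_Icc]
      exact ⟨⟨by omega, hn.1.1.2⟩, hn.1.2.1, hAP _ hn.1.2.2, fun d hd => hAP _ (hn.2 d hd)⟩
    exact_mod_cast card_le_card this
  refine le_trans ?_ (hmain.trans hright)
  have e0 : k + 2 = 2 + k := by ring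
  rw [e0]
  obtain ⟨X, hX⟩ : ∃ X, X = x / l ^ (2 + k) := ⟨_, rfl⟩
  have hX0 : 0 ≤ X := by rw [hX]; positivity
  have hlo : 1 / 2 * X ≤ N / L ^ (2 + k) := by
    have h3 : x / 2 ≤ N := by linarith
    have h4 : L ^ (2 + k) ≤ l ^ (2 + k) := pow_le_pow_left₀ hL0.le a3 _
    rw [hX]
    calc 1 / 2 * (x / l ^ (2 + k)) = (x / 2) / l ^ (2 + k) := by ring
      _ ≤ N / L ^ (2 + k) := div_le_div₀ (Nat.cast_nonneg _) h3 (by positivity) h4
  have hup : N / L ^ (2 + k) ≤ 2 * X := by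
    have h3 : (N : ℝ) / L ^ (2 + k) ≤ (1 + η) ^ (2 + k) * (x / l ^ (2 + k)) := by
      rw [mul_div_assoc', div_le_div_iff₀ (by positivity) (by positivity)]
      have : l ^ (2 + k) ≤ ((1 + η) * L) ^ (2 + k) := pow_le_pow_left₀ hl0.le a4 _
      calc (N : ℝ) * l ^ (2 + k) ≤ x * ((1 + η) * L) ^ (2 + k) := mul_le_mul a6 this (by positivity) hx0.le
        _ = _ := by rw [mul_pow]; ring
    refine h3.trans ?_
    rw [hX]
    exact mul_le_mul_of_nonneg_right (by linarith) (by positivity)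
  rw [← hX]
  have hck : c ^ (k + 1) ≤ κ / 2 * c0 ^ k := by
    rw [pow_succ, mul_comm]
    exact mul_le_mul hcκ (pow_le_pow_left₀ hc.le hcc0 k) (by positivity) (by positivity)
  have h5 : c ^ (k + 1) * G * X ≤ κ * c0 ^ k * (N / L ^ (2 + k) * G) := by
    calc c ^ (k + 1) * G * X ≤ (κ / 2 * c0 ^ k) * G * X := by
          apply mul_le_mul_of_nonneg_right _ hX0
          exact mul_le_mul_of_nonneg_right hck hG0
      _ = κ * c0 ^ k * G * (1 / 2 * X) := by ring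
      _ ≤ κ * c0 ^ k * G * (N / L ^ (2 + k)) := mul_le_mul_of_nonneg_left hlo (by positivity)
      _ = _ := by ring
  have h6 : ε / 2 * ((H / L) ^ k * (N / L ^ 2 * C)) ≤ ε * (H : ℝ) ^ k * C * X := by
    have e : ε / 2 * ((H / L) ^ k * (N / L ^ 2 * C)) = ε / 2 * ((H : ℝ) ^ k * C) * (N / L ^ (2 + k)) := by
      rw [pow_add, div_pow]
      field_simp
    rw [e]
    calc ε / 2 * ((H : ℝ) ^ k * C) * (N / L ^ (2 + k)) ≤ ε / 2 * ((H : ℝ) ^ k * C) * (2 * X) :=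
          mul_le_mul_of_nonneg_left hup (by positivity)
      _ = _ := by ring
  have e3 : (c ^ (k + 1) * G - ε * (H : ℝ) ^ k * C) * X = c ^ (k + 1) * G * X - ε * (H : ℝ) ^ k * C * X := by ring
  rw [e3]
  linarith

end Pool.Agent.L0h43.TE
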